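import Pool.Agent.H15.U.Defs2
import Pool.Agent.H89.MOD.Final

/-!
# Project U3 (MP_0c7934_co): moduli for every `M` divisible by `2 ^ k₀` — statements

`M = 2 ^ k * m`, `m` odd, `k ≥ k₀`: a continuous family of pairwise inequivalent complex
equiangular tight frames with at least `c * k * m` real parameters.
-/

namespace Pool.Agent.H89.U3

open Pool.Agent.H26.U Pool.Agent.H15.U Pool.Agent.H89.MOD

/-- BANC: Banach's fixed point theorem in weighted `ℓ²`, with continuous dependence on a parameter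
which enters additively -/
def S_BANC : Prop := ∀ (X : Type) [Fintype X] (ω : X → ℝ), (∀ x, 0 < ω x) →
  ∀ (T : Type) [TopologicalSpace T] (g : T → X → ℂ) (Q : (X → ℂ) → (X → ℂ)) (A L ε R : ℝ),
  Continuous g → 0 ≤ A → 0 ≤ L → 0 ≤ ε → 0 ≤ R → ∑ x, ω x ≤ A ^ 2 →
  (∀ t x, ‖g t x + Q (fun _ => 0) x‖ ≤ R) →
  (∀ r r' : X → ℂ, nw ω r ≤ 2 * A * R → nw ω r' ≤ 2 * A * R → ∀ x,
    ‖Q r x - Q r' x‖ ≤ (L * (nw ω r + nw ω r') + ε) * nw ω (fun x => r x - r' x)) →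
  4 * A ^ 2 * L * R + 2 * A * ε < 1 →
  ∃ r : T → X → ℂ, Continuous r ∧ ∀ t, (fun x => g t x + Q (r t) x) = r t ∧
    nw ω (r t) ≤ 2 * A * R

/-- FIX2C (from EXP, PV, INV, QL, LEV, CK0, FAM, BANC): `FIX2` with a continuous parameter -/
def S_FIX2C : Prop := ∀ A1 R0 : ℝ, ∃ K n0 : ℕ, ∀ (n : ℕ) [NeZero n], Odd n → n0 ≤ n →
  ∀ c : Fin 4 → ZMod n, (∀ j, IsUnit (c j)) →
  (∀ x : ZMod n, x ^ 2 ≠ 0 → 0 < ∑ j, sz (c j * x ^ 2) ^ 2) →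
  1 / (n : ℝ) * ∑ x ∈ Finset.univ.filter (fun x : ZMod n => x ^ 2 ≠ 0),
    1 / ∑ j, sz (c j * x ^ 2) ^ 2 ≤ A1 →
  ∀ (T : Type) [TopologicalSpace T] (r0 : T → ZMod n → ℂ), Continuous r0 →
  (∀ t x, r0 t (-x) = star (r0 t x)) → (∀ t x, x ≠ 0 → ‖r0 t x‖ ≤ R0) →
  ∃ v : T → Fin K → ZMod n → ℂ, Continuous v ∧ (∀ t j y, ‖v t j y‖ = 1) ∧
    ∀ t x, x ≠ 0 → r0 t x + ∑ j, acf (v t j) x = 0

/-- CHA: a function on a finite group which is a homomorphism to the circle close to `1` is `1` -/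
def S_CHA : Prop := ∀ (H : Type) [AddCommGroup H] [Fintype H] (r : H → ℂ), (∀ x, ‖r x‖ = 1) →
  (∀ x y, r (x + y) = r x * r y) → (∀ x, ‖r x - 1‖ < 1) → ∀ x, r x = 1

/-- TRI: the matrices of BLK; the triple products determine the sequences, locally -/
def S_TRI : Prop := ∀ (K : ℕ) (ι : Type) [Fintype ι] [DecidableEq ι] (_ : FlatCAR K ι),
  3 ≤ Fintype.card ι →
  ∀ (H : Type) [AddCommGroup H] [Fintype H] [DecidableEq H] (t : H), t ≠ 0 → t + t = 0 →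
  ∀ (d : ℕ) (f : (Fin d → ℝ) → Fin K → H → ℂ), Continuous f → Function.Injective f →
  (∀ s j, f s j 0 = 0 ∧ f s j t = 0) →
  (∀ h, h ≠ 0 → h ≠ t → ∃ j, ((∀ s, ‖f s j h‖ = 1 ∧ f s j (-h) = 0) ∨
      (∀ s, f s j h = 0 ∧ ‖f s j (-h)‖ = 1)) ∧
    ∀ i, i ≠ j → ∀ s, f s i h = 0 ∧ f s i (-h) = 0) →
  (∀ s x, x ≠ 0 → ∑ j, acf (f s j) x = 0) → FamEx (Fintype.card ι * Fintype.card H) d

/-- SEQC (from CAR, TRI) -/
def S_SEQC : Prop := ∀ (τ n : ℕ) [NeZero n], 1 ≤ τ → Odd n → 3 ≤ n →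
  ∀ (U R : ZMod n → ℂ) (d : ℕ) (v : (Fin d → ℝ) → Fin (τ - 1) → ZMod n → ℂ), HalfFlat U →
  HalfFlat R → Continuous v → Function.Injective v → (∀ s j y, ‖v s j y‖ = 1) →
  (∀ s x, x ≠ 0 → acf U x + acf R x + ∑ j, acf (v s j) x = 0) →
  FamEx (8 ^ (τ + 1) * (2 * τ * n)) d

/-- BASE (from CAR, TRI; `H = ZMod 4`, one mode): a family with one parameter of order `32` -/
def S_BASE : Prop := FamEx 32 1

/-- WFAM (from EXP, FIX2C, UNI2, CRN): the sequences; `K` and `n0` are absolute, `p` is free -/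
def S_WFAM : Prop := ∃ K n0 : ℕ, ∀ (n : ℕ) [NeZero n], Odd n → n0 ≤ n → ∀ p : ℕ,
  ∃ (U R : ZMod n → ℂ) (v : (Fin ((p + 1) * n) → ℝ) → Fin (K + 1 + p) → ZMod n → ℂ),
    HalfFlat U ∧ HalfFlat R ∧ Continuous v ∧ Function.Injective v ∧
    (∀ s j y, ‖v s j y‖ = 1) ∧
    ∀ s x, x ≠ 0 → acf U x + acf R x + ∑ j, acf (v s j) x = 0

/-- BIG (from SEQC, WFAM): large odd part -/
def S_BIG : Prop := ∃ (k0 n0 : ℕ) (c : ℝ), 0 < c ∧ ∀ k n : ℕ, k0 ≤ k → Odd n → n0 ≤ n →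
  ∃ d : ℕ, c * k * n ≤ d ∧ FamEx (2 * (2 ^ k * n)) d

/-- SML (from BASE): bounded odd part -/
def S_SML : Prop := ∀ n0 : ℕ, ∃ (k0 : ℕ) (c : ℝ), 0 < c ∧ ∀ k n : ℕ, k0 ≤ k → Odd n → n ≤ n0 →
  ∃ d : ℕ, c * k * n ≤ d ∧ FamEx (2 * (2 ^ k * n)) d

/-- MAINC (from BIG, SML) -/
def S_MAINC : Prop := ∃ (k0 : ℕ) (c : ℝ), 0 < c ∧ ∀ k n : ℕ, k0 ≤ k → Odd n →
  ∃ d : ℕ, c * k * n ≤ d ∧ FamEx (2 * (2 ^ k * n)) d

end Pool.Agent.H89.U3
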