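import Pool.Agent.H89.U3.Stmts

/-!
# Project U3: large odd part
-/

namespace Pool.Agent.H89.U3

open Pool.Agent.H26.U Pool.Agent.H15.U Pool.Agent.H89.MOD

/-- BIG -/
theorem BIG (hS : S_SEQC) (hW : S_WFAM) : S_BIG := by
  obtain ⟨K, n0, hK⟩ := hW
  refine ⟨32 * (K + 2), max n0 3, 1 / 32, by norm_num, fun k n hk hn hn0 => ?_⟩
  have h3 : 3 ≤ n := le_trans (le_max_right _ _) hn0
  have hn1 : n0 ≤ n := le_trans (le_max_left _ _) hn0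
  have : NeZero n := ⟨by omega⟩
  -- the exponent `e`
  obtain ⟨e, he1, he2⟩ : ∃ e : ℕ, 2 ^ e ≤ k / 8 ∧ k / 8 < 2 ^ (e + 1) :=
    ⟨Nat.log 2 (k / 8), Nat.pow_log_le_self 2 (by omega), Nat.lt_pow_succ_log_self (by norm_num) _⟩
  have he3 : K + 2 ≤ 2 ^ e := by
    rw [pow_succ] at he2
    omega
  have he4 : e < 2 ^ e := Nat.lt_two_pow_self
  obtain ⟨p, hp⟩ : ∃ p, p = 2 ^ e - K - 2 := ⟨_, rfl⟩
  obtain ⟨U, R, v, hU, hR, hv, hvi, hv1, hv2⟩ := hK n hn hn1 p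
  have hτ : K + 1 + p = 2 ^ e - 1 := by omega
  have hτ1 : 1 ≤ 2 ^ e := Nat.one_le_two_pow
  have hk1 : 3 * (2 ^ e + 1) + e ≤ k := by omega
  have key : ∀ τ : ℕ, K + 1 + p = τ - 1 → 1 ≤ τ →
      FamEx (8 ^ (τ + 1) * (2 * τ * n)) ((p + 1) * n) := by
    intro τ hτ hτ1
    obtain ⟨v', hv', hvi', hv1', hv2'⟩ : ∃ v' : (Fin ((p + 1) * n) → ℝ) → Fin (τ - 1) → ZMod n → ℂ,
        Continuous v' ∧ Function.Injective v' ∧ (∀ s j y, ‖v' s j y‖ = 1) ∧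
        ∀ s x, x ≠ 0 → acf U x + acf R x + ∑ j, acf (v' s j) x = 0 := by
      rw [← hτ]
      exact ⟨v, hv, hvi, hv1, hv2⟩
    exact hS τ n hτ1 hn h3 U R _ v' hU hR hv' hvi' hv1' hv2'
  have h4 := (key (2 ^ e) hτ hτ1).double (k - (3 * (2 ^ e + 1) + e))
  have e1 : 2 ^ (k - (3 * (2 ^ e + 1) + e)) * (8 ^ (2 ^ e + 1) * (2 * 2 ^ e * n)) =
      2 * (2 ^ k * n) := by
    have h5 : 2 ^ k = 2 ^ (k - (3 * (2 ^ e + 1) + e)) * 2 ^ (3 * (2 ^ e + 1) + e) := by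
      rw [← pow_add]
      congr 1
      omega
    have h6 : (8 : ℕ) ^ (2 ^ e + 1) = 2 ^ (3 * (2 ^ e + 1)) := by
      rw [show (8 : ℕ) = 2 ^ 3 by norm_num, ← pow_mul]
    rw [h5, h6, pow_add]
    ring
  rw [e1] at h4
  refine ⟨(p + 1) * n, ?_, h4⟩
  have h7 : k ≤ 32 * (p + 1) := by
    rw [pow_succ] at he2
    omega
  have h8 : (k : ℝ) ≤ 32 * (p + 1) := by exact_mod_cast h7
  have h9 : (0 : ℝ) ≤ n := by positivity
  push_cast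
  calc (1 : ℝ) / 32 * k * n ≤ 1 / 32 * (32 * (p + 1)) * n := by gcongr
    _ = (p + 1) * n := by ring

end Pool.Agent.H89.U3
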