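import Pool.Agent.H89.U3.Stmts

/-!
# Project U3: homomorphisms to the circle close to one
-/

namespace Pool.Agent.H89.U3

open Finset

/-- CHA -/
theorem CHA : S_CHA := by
  intro H _ _ r hn hm hc x
  have h0 : r 0 = 1 := by
    have h1 := hm 0 0
    rw [add_zero] at h1
    have h2 : r 0 ≠ 0 := by
      intro h
      have := hn 0
      rw [h, norm_zero] at this
      exact zero_ne_one this
    exact (mul_eq_left₀ h2).1 h1.symm
  have hp : ∀ k : ℕ, r (k • x) = r x ^ k := by
    intro k
    induction k with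
    | zero => rw [zero_smul, h0, pow_zero]
    | succ k ih => rw [succ_nsmul, hm, ih, pow_succ]
  by_contra hne
  have h1 : r x ^ Fintype.card H = 1 := by
    rw [← hp, card_nsmul_eq_zero, h0]
  have h2 : ∑ k ∈ range (Fintype.card H), r x ^ k = 0 := by
    have h3 := geom_sum_mul (r x) (Fintype.card H)
    rw [h1, sub_self] at h3
    exact (mul_eq_zero.1 h3).resolve_right (sub_ne_zero.2 hne)
  have h4 : ∀ k ∈ range (Fintype.card H), (1 : ℝ) / 2 ≤ (r x ^ k).re := by
    intro k _
    rw [← hp]
    have h5 := hc (k • x)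
    have h6 := hn (k • x)
    have h7 : ‖r (k • x) - 1‖ ^ 2 < 1 := by
      have := norm_nonneg (r (k • x) - 1)
      nlinarith
    have h8 : ‖r (k • x)‖ ^ 2 = 1 := by rw [h6]; norm_num
    rw [← Complex.normSq_eq_norm_sq, Complex.normSq_apply] at h7 h8
    simp only [Complex.sub_re, Complex.one_re, Complex.sub_im, Complex.one_im, sub_zero] at h7
    nlinarith
  have h9 := sum_le_sum h4
  have h10 : ∑ k ∈ range (Fintype.card H), (r x ^ k).re = 0 := by
    rw [← Complex.re_sum, h2, Complex.zero_re]
  rw [h10, sum_const, card_range, nsmul_eq_mul] at h9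
  have h11 : (0 : ℝ) < Fintype.card H := by
    exact_mod_cast Fintype.card_pos_iff.2 ⟨x⟩
  linarith

end Pool.Agent.H89.U3
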