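import Pool.Agent.H89.U3.Stmts

/-!
# Project U3: MAINC and the form for frames
-/

namespace Pool.Agent.H89.U3

open Pool.Agent.H26.U Pool.Agent.H15.U Pool.Agent.H89.MOD Pool.Agent.H37.Etf

/-- MAINC -/
theorem MAINC (hB : S_BIG) (hS : S_SML) : S_MAINC := by
  obtain ⟨k1, n0, c1, hc1, h1⟩ := hB
  obtain ⟨k2, c2, hc2, h2⟩ := hS n0
  refine ⟨max k1 k2, min c1 c2, lt_min hc1 hc2, fun k n hk hn => ?_⟩
  have hk1 : k1 ≤ k := le_trans (le_max_left _ _) hk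
  have hk2 : k2 ≤ k := le_trans (le_max_right _ _) hk
  have hkn : (0 : ℝ) ≤ (k : ℝ) * n := by positivity
  rcases le_total n0 n with h | h
  · obtain ⟨d, hd, hF⟩ := h1 k n hk1 hn h
    refine ⟨d, le_trans ?_ hd, hF⟩
    rw [mul_assoc, mul_assoc]
    exact mul_le_mul_of_nonneg_right (min_le_left _ _) hkn
  · obtain ⟨d, hd, hF⟩ := h2 k n hk2 hn h
    refine ⟨d, le_trans ?_ hd, hF⟩
    rw [mul_assoc, mul_assoc]
    exact mul_le_mul_of_nonneg_right (min_le_right _ _) hkn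

/-- the form for frames -/
theorem frames_of_mainc (h : S_MAINC) : ∃ (k0 : ℕ) (c : ℝ), 0 < c ∧ ∀ k m : ℕ, k0 ≤ k → Odd m →
    ∃ d : ℕ, c * k * m ≤ d ∧ ∃ f : (Fin d → ℝ) → Fin (2 * (2 ^ k * m)) →
        EuclideanSpace ℂ (Fin (2 ^ k * m)),
      Continuous f ∧ (∀ s, IsETF (f s)) ∧ ∀ s t, Equivalent (f s) (f t) → s = t := by
  obtain ⟨k0, c, hc, h⟩ := h
  refine ⟨k0, c, hc, fun k m hk hm => ?_⟩
  obtain ⟨d, hd, hF⟩ := h k m hk hm
  exact ⟨d, hd, hF.frames (Nat.mul_pos (by positivity) hm.pos)⟩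

end Pool.Agent.H89.U3
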