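import Pool.Agent.H89.U3.Stmts

/-!
# Project U3: bounded odd part
-/

namespace Pool.Agent.H89.U3

open Pool.Agent.H26.U Pool.Agent.H15.U Pool.Agent.H89.MOD

/-- products of the family with one parameter -/
lemma small_blocks (h : S_BASE) (l : ℕ) : FamEx (2 * (8 ^ l * 16 ^ (l + 1))) (l + 1) := by
  have hL : ∀ p ∈ List.replicate (l + 1) ((16, 1) : ℕ × ℕ), Block p := by
    intro p hp
    rw [List.eq_of_mem_replicate hp]
    exact ⟨by norm_num, h⟩
  have h1 := (block_list (List.replicate (l + 1) ((16, 1) : ℕ × ℕ)) (by simp) hL).2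
  simpa using h1

/-- SML -/
theorem SML (h : S_BASE) : S_SML := by
  intro n0
  refine ⟨4 * n0 + 18, 1 / (14 * (n0 + 1)), by positivity, fun k n hk hn hn0 => ?_⟩
  obtain ⟨l, hl⟩ : ∃ l, l = (k - 2 * n0 - 4) / 7 := ⟨_, rfl⟩
  have h1 : 7 * l + 4 + 2 * n0 ≤ k := by omega
  have h2 : k < 7 * l + 7 + 4 + 2 * n0 := by omega
  have h3 := small_blocks h l
  have hr : (n.primeFactors.erase 2).card ≤ n0 := by
    have h4 : (n.primeFactors.erase 2).card ≤ n.primeFactors.card := Finset.card_erase_le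
    have h5 : n.primeFactors ⊆ Finset.Icc 1 n := by
      intro p hp
      rw [Finset.mem_Icc]
      exact ⟨(Nat.prime_of_mem_primeFactors hp).one_le,
        Nat.le_of_dvd hn.pos (Nat.dvd_of_mem_primeFactors hp)⟩
    have h6 := Finset.card_le_card h5
    rw [Nat.card_Icc] at h6
    omega
  have h7 := h3.all (by
    have : 0 < 8 ^ l * 16 ^ (l + 1) := by positivity
    omega) n (k - (7 * l + 4)) hn.pos (by omega)
  have e : 2 ^ (k - (7 * l + 4)) * n * (2 * (8 ^ l * 16 ^ (l + 1))) = 2 * (2 ^ k * n) := by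
    have h8 : (2 : ℕ) ^ k = 2 ^ (k - (7 * l + 4)) * (8 ^ l * 16 ^ (l + 1)) := by
      rw [show (8 : ℕ) = 2 ^ 3 by norm_num, show (16 : ℕ) = 2 ^ 4 by norm_num, ← pow_mul, ← pow_mul,
        ← pow_add, ← pow_add]
      congr 1
      omega
    rw [h8]
    ring
  rw [e] at h7
  refine ⟨l + 1, ?_, h7⟩
  have hk' : (k : ℝ) < 7 * l + 7 + 4 + 2 * n0 := by exact_mod_cast h2
  have hk2 : (4 * n0 + 18 : ℝ) ≤ k := by exact_mod_cast hk
  have hnr : (n : ℝ) ≤ n0 := by exact_mod_cast hn0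
  have hn00 : (0 : ℝ) ≤ n0 := by positivity
  have hk3 : (k : ℝ) ≤ 14 * (l + 1) := by linarith
  have hk0 : (0 : ℝ) ≤ k := by positivity
  push_cast
  calc 1 / (14 * ((n0 : ℝ) + 1)) * k * n ≤ 1 / (14 * ((n0 : ℝ) + 1)) * k * (n0 + 1) := by
        apply mul_le_mul_of_nonneg_left (by linarith) (by positivity)
    _ = k / 14 := by field_simp
    _ ≤ l + 1 := by linarith

end Pool.Agent.H89.U3
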