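import Pool.Agent.H15.U.Final
import Pool.Agent.H15.U3.FIX2C
import Pool.Agent.H15.U3.WFAM
import Pool.Agent.H22.U3.SEQC
import Pool.Agent.H37.U3.BASE
import Pool.Agent.H50.U3.TRI
import Pool.Agent.H78.U3.BANC
import Pool.Agent.H89.U3.BIG
import Pool.Agent.H89.U3.CHA
import Pool.Agent.H89.U3.MAINC
import Pool.Agent.H89.U3.SML

/-!
# Project U3: the final theorem
-/

namespace Pool.Agent.H89.U3

open Pool.Agent.H26.U Pool.Agent.H15.U Pool.Agent.H89.MOD Pool.Agent.H37.Etf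

/-- the corner theorem -/
theorem crn : S_CRN :=
  have hG : S_GAM := Pool.Agent.H26.U.GAM
  have hGB : S_GBD := Pool.Agent.H26.U.GBD hG (Pool.Agent.H26.U.PSB hG)
  Pool.Agent.H23.U.CRN (Pool.Agent.H26.U.VBD (Pool.Agent.H26.U.VRH
    (Pool.Agent.H26.U.FBD hGB hG) Pool.Agent.H26.U.SER hG) Pool.Agent.H20.U.SEC)

theorem tri : S_TRI := Pool.Agent.H50.U3.TRI CHA

theorem car : S_CAR := Pool.Agent.H22.U.CAR Pool.Agent.H22.U.SEED

theorem mainc : S_MAINC :=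
  MAINC (BIG (Pool.Agent.H22.U3.SEQC car tri) (Pool.Agent.H15.U3.WFAM Pool.Agent.H34.U.EXP
    (Pool.Agent.H15.U3.FIX2C Pool.Agent.H34.U.EXP Pool.Agent.H34.U.PV Pool.Agent.H34.U.INV
      Pool.Agent.H34.U.QL Pool.Agent.H34.U.LEV Pool.Agent.H34.U.CK0 Pool.Agent.H20.U.FAM
      Pool.Agent.H78.U3.BANC) Pool.Agent.H34.U.UNI2 crn))
    (SML (Pool.Agent.H37.U3.BASE car tri))

end Pool.Agent.H89.U3
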